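import Pool.Agent.W2helper57.LD.Stm

set_option autoImplicit false

open Filter Asymptotics Pool.Agent.N602.PC Pool.Agent.W2helper57.LD

namespace Pool.Agent.W2helper43.LD

theorem th_le (v : ℕ) (L a : ℝ) (h : a * L ≤ (v : ℝ) - 1) : th v ≤ Real.exp (-(a * L) / 3) := by
  unfold th
  have h2 : (Real.sqrt 2)⁻¹ ≤ Real.exp (-(1 / 3 : ℝ)) := by
    rw [Real.exp_neg]
    apply inv_anti₀ (Real.exp_pos _)
    apply Real.le_sqrt_of_sq_le
    rw [← Real.exp_nat_mul]
    have : Real.exp ((2 : ℕ) * (1 / 3 : ℝ)) ≤ Real.exp (Real.log 2) := by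
      apply Real.exp_le_exp.mpr
      have := Real.log_two_gt_d9
      push_cast
      linarith
    rwa [Real.exp_log (by norm_num)] at this
  calc ((Real.sqrt 2)⁻¹) ^ (v - 1) ≤ (Real.exp (-(1 / 3 : ℝ))) ^ (v - 1) :=
        pow_le_pow_left₀ (by positivity) h2 _
    _ = Real.exp ((v - 1 : ℕ) * (-(1 / 3 : ℝ))) := by rw [← Real.exp_nat_mul]
    _ ≤ Real.exp (-(a * L) / 3) := by
        apply Real.exp_le_exp.mpr
        have : (v : ℝ) - 1 ≤ ((v - 1 : ℕ) : ℝ) := by
          have h3 : v ≤ (v - 1) + 1 := by omega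
          have h4 : (v : ℝ) ≤ ((v - 1 : ℕ) : ℝ) + 1 := by exact_mod_cast h3
          linarith
        linarith

theorem th_nonneg (v : ℕ) : 0 ≤ th v := by
  unfold th; positivity

/-- all bounds for one `n = exp (L ^ 2)` -/
theorem det (v N : ℕ) (p L B a : ℝ) (hB : 0 ≤ B) (ha : 6 * B + 9 ≤ a) (hL : 2 * (B + 3) ≤ L)
    (hv1 : a * L ≤ (v : ℝ) - 1) (hv2 : 12 * ((v : ℝ) + 1) ≤ Real.exp L)
    (hN1 : Real.exp (L ^ 2) ≤ 12 * ((v : ℝ) + 1) * N) (hN2 : (N : ℝ) ≤ Real.exp (L ^ 2))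
    (hp : Real.exp (-(L ^ 2 / 2) - B * L) ≤ p) (hp1 : p ≤ 1) :
    0 ≤ kap v N p ∧ kap v N p ≤ 1735 * Real.exp ((3 * B + 4) * L - 3 / 2 * L ^ 2) := by
  have hL6 : 6 ≤ L := by linarith
  have hL0 : 0 ≤ L := by linarith
  have hv0 : (0 : ℝ) ≤ v := Nat.cast_nonneg v
  have hp0 : 0 < p := lt_of_lt_of_le (Real.exp_pos _) hp
  have hN0 : (0 : ℝ) < N := by
    by_contra hcon
    push Not at hcon
    have h1 : 12 * ((v : ℝ) + 1) * N ≤ 0 := mul_nonpos_of_nonneg_of_nonpos (by positivity) hcon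
    have h2 := Real.exp_pos (L ^ 2)
    linarith
  have hNinv : 1 / (N : ℝ) ≤ Real.exp (L - L ^ 2) := by
    rw [div_le_iff₀ hN0, Real.exp_sub, div_mul_eq_mul_div, le_div_iff₀ (Real.exp_pos _), one_mul]
    calc Real.exp (L ^ 2) ≤ 12 * ((v : ℝ) + 1) * N := hN1
      _ ≤ Real.exp L * N := mul_le_mul_of_nonneg_right hv2 hN0.le
  have hpinv : 1 / p ≤ Real.exp (L ^ 2 / 2 + B * L) := by
    rw [div_le_iff₀ hp0]
    calc (1 : ℝ) = Real.exp (L ^ 2 / 2 + B * L) * Real.exp (-(L ^ 2 / 2) - B * L) := by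
          rw [← Real.exp_add]; rw [← Real.exp_zero]; congr 1; ring
      _ ≤ Real.exp (L ^ 2 / 2 + B * L) * p := mul_le_mul_of_nonneg_left hp (Real.exp_pos _).le
  obtain ⟨X, hX⟩ : ∃ X : ℝ, X = 1 / (N * p) := ⟨_, rfl⟩
  obtain ⟨G, hG⟩ : ∃ G : ℝ, G = 1 / (N * p ^ 2) := ⟨_, rfl⟩
  obtain ⟨b, hb⟩ : ∃ b : ℝ, b = th v / (N * p ^ 2) := ⟨_, rfl⟩
  have hXN : X = 1 / (N : ℝ) * (1 / p) := by rw [hX]; field_simp
  have hGN : G = 1 / (N : ℝ) * ((1 / p) * (1 / p)) := by rw [hG]; field_simp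
  have hbG : b = th v * G := by rw [hb, hG]; ring
  have hX0 : 0 < X := by rw [hX]; positivity
  have hG0 : 0 < G := by rw [hG]; positivity
  have hb0 : 0 ≤ b := by rw [hbG]; exact mul_nonneg (th_nonneg v) hG0.le
  have hXle : X ≤ Real.exp ((B + 1) * L - L ^ 2 / 2) := by
    rw [hXN]
    calc 1 / (N : ℝ) * (1 / p) ≤ Real.exp (L - L ^ 2) * Real.exp (L ^ 2 / 2 + B * L) :=
          mul_le_mul hNinv hpinv (by positivity) (Real.exp_pos _).le
      _ = Real.exp ((B + 1) * L - L ^ 2 / 2) := by rw [← Real.exp_add]; congr 1; ring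
  have hGle : G ≤ Real.exp ((2 * B + 1) * L) := by
    rw [hGN]
    calc 1 / (N : ℝ) * ((1 / p) * (1 / p)) ≤ Real.exp (L - L ^ 2) *
            (Real.exp (L ^ 2 / 2 + B * L) * Real.exp (L ^ 2 / 2 + B * L)) := by
          apply mul_le_mul hNinv _ (by positivity) (Real.exp_pos _).le
          exact mul_le_mul hpinv hpinv (by positivity) (Real.exp_pos _).le
      _ = Real.exp ((2 * B + 1) * L) := by rw [← Real.exp_add, ← Real.exp_add]; congr 1; ring
  have hX2 : X ≤ Real.exp (-(2 * L)) := by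
    refine hXle.trans (Real.exp_le_exp.mpr ?_)
    nlinarith
  have hb2 : b ≤ Real.exp (-(2 * L)) := by
    rw [hbG]
    calc th v * G ≤ Real.exp (-(a * L) / 3) * Real.exp ((2 * B + 1) * L) :=
          mul_le_mul (th_le v L a hv1) hGle hG0.le (Real.exp_pos _).le
      _ = Real.exp (-(a * L) / 3 + (2 * B + 1) * L) := by rw [← Real.exp_add]
      _ ≤ Real.exp (-(2 * L)) := by
          apply Real.exp_le_exp.mpr
          nlinarith
  have hE7 : 7 ≤ Real.exp L := by
    have := Real.add_one_le_exp L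
    linarith
  have hEm : Real.exp (-L) * Real.exp L = 1 := by rw [← Real.exp_add]; simp
  have hE2 : Real.exp (-(2 * L)) = Real.exp (-L) * Real.exp (-L) := by
    rw [← Real.exp_add]; congr 1; ring
  have hEm0 := Real.exp_pos (-L)
  have hEm1 : Real.exp (-L) ≤ 1 / 7 := by
    rw [le_div_iff₀ (by norm_num), ← hEm]
    exact mul_le_mul_of_nonneg_left hE7 hEm0.le
  have hXb : X + b ≤ Real.exp (-L) := by
    have e1 : Real.exp (-(2 * L)) ≤ 1 / 7 * Real.exp (-L) := by
      rw [hE2]; exact mul_le_mul_of_nonneg_right hEm1 hEm0.le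
    linarith
  have hvE : (v : ℝ) * Real.exp (-L) ≤ 1 := by
    calc (v : ℝ) * Real.exp (-L) ≤ Real.exp L * Real.exp (-L) :=
          mul_le_mul_of_nonneg_right (by linarith) hEm0.le
      _ = 1 := by rw [mul_comm]; exact hEm
  -- first term
  have h1 : (1 + X + b) ^ v ≤ 3 := by
    calc (1 + X + b) ^ v ≤ (Real.exp (X + b)) ^ v := by
          apply pow_le_pow_left₀ (by positivity)
          have := Real.add_one_le_exp (X + b)
          linarith
      _ = Real.exp (v * (X + b)) := by rw [← Real.exp_nat_mul]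
      _ ≤ Real.exp 1 := by
          apply Real.exp_le_exp.mpr
          calc (v : ℝ) * (X + b) ≤ v * Real.exp (-L) := mul_le_mul_of_nonneg_left hXb hv0
            _ ≤ 1 := hvE
      _ ≤ 3 := by
          have := Real.exp_one_lt_d9
          linarith
  -- second term
  have h2 : G * (X + b) ^ v ≤ X := by
    have hvL : a * L ≤ v := by linarith
    calc G * (X + b) ^ v ≤ Real.exp ((2 * B + 1) * L) * (Real.exp (-L)) ^ v := by
          apply mul_le_mul hGle _ (by positivity) (Real.exp_pos _).le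
          exact pow_le_pow_left₀ (by positivity) hXb v
      _ = Real.exp ((2 * B + 1) * L + v * (-L)) := by
          rw [← Real.exp_nat_mul, ← Real.exp_add]
      _ ≤ Real.exp (-(L ^ 2)) := by
          apply Real.exp_le_exp.mpr
          have m1 : a * L * L ≤ v * L := mul_le_mul_of_nonneg_right hvL hL0
          have m2 : (6 * B + 9) * (L * L) ≤ a * (L * L) :=
            mul_le_mul_of_nonneg_right ha (mul_nonneg hL0 hL0)
          have m3 : 1 * L ≤ L * L := mul_le_mul_of_nonneg_right (by linarith) hL0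
          have m4 : (2 * B + 1) * (1 * L) ≤ (2 * B + 1) * (L * L) :=
            mul_le_mul_of_nonneg_left m3 (by linarith)
          have m5 : 0 ≤ (4 * B + 7) * (L * L) := mul_nonneg (by linarith) (mul_nonneg hL0 hL0)
          have e1 : a * L * L = a * (L * L) := by ring
          have e2 : (6 * B + 9) * (L * L) = (2 * B + 1) * (L * L) + L ^ 2 + (4 * B + 7) * (L * L) := by
            ring
          have e3 : (2 * B + 1) * (1 * L) = (2 * B + 1) * L := by ring
          have e4 : (v : ℝ) * (-L) = -(v * L) := by ring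
          rw [e4]
          linarith
      _ ≤ 1 / (N : ℝ) := by
          rw [Real.exp_neg, ← one_div]
          exact one_div_le_one_div_of_le hN0 hN2
      _ ≤ X := by
          rw [hXN]
          have : 1 ≤ 1 / p := by rw [le_div_iff₀ hp0]; linarith
          have h3 : 0 < 1 / (N : ℝ) := by positivity
          exact le_mul_of_one_le_right h3.le this
  have heta : eta v N p = X * (1 + X + b) ^ v + G * (X + b) ^ v := by
    unfold eta; rw [hX, hG, hb]
  have heta0 : 0 ≤ eta v N p := by rw [heta]; positivity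
  have heta4 : eta v N p ≤ 4 * X := by
    rw [heta]
    have : X * (1 + X + b) ^ v ≤ X * 3 := mul_le_mul_of_nonneg_left h1 hX0.le
    linarith
  have hvX : (v : ℝ) * X ≤ 1 := by
    calc (v : ℝ) * X ≤ v * Real.exp (-L) :=
          mul_le_mul_of_nonneg_left (by linarith) hv0
      _ ≤ 1 := hvE
  have h3 : (1 + X) ^ v - 1 ≤ 2 * (v * X) := by
    have h4 : (1 + X) ^ v ≤ Real.exp (v * X) := by
      calc (1 + X) ^ v ≤ (Real.exp X) ^ v := by
            apply pow_le_pow_left₀ (by positivity)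
            have := Real.add_one_le_exp X
            linarith
        _ = Real.exp (v * X) := by rw [← Real.exp_nat_mul]
    have h50 : 0 ≤ (v : ℝ) * X := by positivity
    have h5 := Real.abs_exp_sub_one_sub_id_le (x := (v : ℝ) * X) (by rw [abs_of_nonneg h50]; exact hvX)
    have h6 := (abs_le.mp h5).2
    have h7 : ((v : ℝ) * X) ^ 2 ≤ (v : ℝ) * X := by
      rw [pow_two]; exact mul_le_of_le_one_right h50 hvX
    linarith
  have hdlt : dlt v N p = ((1 + X) ^ v - 1) + eta v N p := by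
    unfold dlt; rw [hX]
  have hdlt0 : 0 ≤ dlt v N p := by
    rw [hdlt]
    have : 1 ≤ (1 + X) ^ v := one_le_pow₀ (by linarith)
    linarith
  have hdltE : dlt v N p ≤ Real.exp L * X := by
    rw [hdlt]
    have : 2 * ((v : ℝ) * X) + 4 * X ≤ Real.exp L * X := by
      have h7 : 2 * ((v : ℝ) * X) + 4 * X = (2 * v + 4) * X := by ring
      rw [h7]
      exact mul_le_mul_of_nonneg_right (by linarith) hX0.le
    linarith
  have hdlt1 : dlt v N p ≤ 1 := by
    refine hdltE.trans ?_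
    calc Real.exp L * X ≤ Real.exp L * Real.exp (-(2 * L)) :=
          mul_le_mul_of_nonneg_left hX2 (Real.exp_pos _).le
      _ = Real.exp (-L) := by rw [← Real.exp_add]; congr 1; ring
      _ ≤ 1 := by linarith
  have heta1 : eta v N p ≤ 1 := by
    refine heta4.trans ?_
    have e1 : Real.exp (-(2 * L)) ≤ 1 / 7 := by
      rw [hE2]
      calc Real.exp (-L) * Real.exp (-L) ≤ 1 / 7 * 1 :=
            mul_le_mul hEm1 (by linarith) hEm0.le (by norm_num)
        _ = 1 / 7 := by norm_num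
    linarith
  obtain ⟨d, hd⟩ : ∃ d : ℝ, d = dlt v N p := ⟨_, rfl⟩
  obtain ⟨e, he⟩ : ∃ e : ℝ, e = eta v N p := ⟨_, rfl⟩
  have hkap : kap v N p = p * ((1 + d ^ 2) ^ 3 - 1) + ((1 + e) ^ 2 - 1) ^ 3 := by
    unfold kap; rw [hd, he]
  rw [← hd] at hdlt0 hdltE hdlt1
  rw [← he] at heta0 heta4 heta1
  have hd21 : d ^ 2 ≤ 1 := pow_le_one₀ hdlt0 hdlt1
  have hd20 : 0 ≤ d ^ 2 := by positivity
  have k1 : (1 + d ^ 2) ^ 3 - 1 ≤ 7 * d ^ 2 := by
    have e1 : (1 + d ^ 2) ^ 3 - 1 = 3 * d ^ 2 + 3 * (d ^ 2 * d ^ 2) + d ^ 2 * (d ^ 2 * d ^ 2) := by ring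
    have e2 : d ^ 2 * d ^ 2 ≤ d ^ 2 := mul_le_of_le_one_right hd20 hd21
    have e3 : d ^ 2 * (d ^ 2 * d ^ 2) ≤ d ^ 2 * 1 :=
      mul_le_mul_of_nonneg_left (e2.trans hd21) hd20
    linarith
  have k10 : 0 ≤ (1 + d ^ 2) ^ 3 - 1 := by
    have : 1 ≤ (1 + d ^ 2) ^ 3 := one_le_pow₀ (by linarith)
    linarith
  have k2 : (1 + e) ^ 2 - 1 ≤ 3 * e := by
    have e1 : (1 + e) ^ 2 - 1 = 2 * e + e * e := by ring
    have e2 : e * e ≤ e := mul_le_of_le_one_right heta0 heta1
    linarith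
  have k20 : 0 ≤ (1 + e) ^ 2 - 1 := by
    have e1 : (1 + e) ^ 2 - 1 = 2 * e + e * e := by ring
    have e2 : 0 ≤ e * e := mul_nonneg heta0 heta0
    linarith
  have k3 : ((1 + e) ^ 2 - 1) ^ 3 ≤ (3 * e) ^ 3 := pow_le_pow_left₀ k20 k2 3
  have k4 : (3 * e) ^ 3 ≤ (12 * X) ^ 3 := pow_le_pow_left₀ (by positivity) (by linarith) 3
  have k5 : d ^ 2 ≤ (Real.exp L * X) ^ 2 := pow_le_pow_left₀ hdlt0 hdltE 2
  have hpX : p * X ^ 2 = 1 / (N : ℝ) * X := by rw [hX]; field_simp
  have k6 : p * ((1 + d ^ 2) ^ 3 - 1) ≤ 7 * Real.exp ((B + 4) * L - 3 / 2 * L ^ 2) := by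
    calc p * ((1 + d ^ 2) ^ 3 - 1) ≤ p * (7 * (Real.exp L * X) ^ 2) :=
          mul_le_mul_of_nonneg_left (k1.trans (by linarith)) hp0.le
      _ = 7 * (Real.exp L * Real.exp L) * (p * X ^ 2) := by ring
      _ = 7 * (Real.exp L * Real.exp L) * (1 / (N : ℝ) * X) := by rw [hpX]
      _ ≤ 7 * (Real.exp L * Real.exp L) *
            (Real.exp (L - L ^ 2) * Real.exp ((B + 1) * L - L ^ 2 / 2)) := by
          apply mul_le_mul_of_nonneg_left _ (by positivity)
          exact mul_le_mul hNinv hXle hX0.le (Real.exp_pos _).le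
      _ = 7 * (Real.exp L * Real.exp L * (Real.exp (L - L ^ 2) *
            Real.exp ((B + 1) * L - L ^ 2 / 2))) := by ring
      _ = 7 * Real.exp ((B + 4) * L - 3 / 2 * L ^ 2) := by
          rw [← Real.exp_add, ← Real.exp_add, ← Real.exp_add]
          congr 2; ring
  have k7 : ((1 + e) ^ 2 - 1) ^ 3 ≤ 1728 * Real.exp ((3 * B + 3) * L - 3 / 2 * L ^ 2) := by
    calc ((1 + e) ^ 2 - 1) ^ 3 ≤ (12 * X) ^ 3 := k3.trans k4
      _ = 1728 * X ^ 3 := by ring
      _ ≤ 1728 * (Real.exp ((B + 1) * L - L ^ 2 / 2)) ^ 3 := by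
          apply mul_le_mul_of_nonneg_left _ (by norm_num)
          exact pow_le_pow_left₀ hX0.le hXle 3
      _ = 1728 * Real.exp ((3 * B + 3) * L - 3 / 2 * L ^ 2) := by
          rw [← Real.exp_nat_mul]; congr 2; push_cast; ring
  refine ⟨?_, ?_⟩
  · rw [hkap]; positivity
  · rw [hkap]
    have hBL : 0 ≤ B * L := mul_nonneg hB hL0
    have m1 : Real.exp ((B + 4) * L - 3 / 2 * L ^ 2) ≤ Real.exp ((3 * B + 4) * L - 3 / 2 * L ^ 2) := by
      apply Real.exp_le_exp.mpr
      have : (3 * B + 4) * L = (B + 4) * L + 2 * (B * L) := by ring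
      linarith
    have m2 : Real.exp ((3 * B + 3) * L - 3 / 2 * L ^ 2) ≤
        Real.exp ((3 * B + 4) * L - 3 / 2 * L ^ 2) := by
      apply Real.exp_le_exp.mpr
      have : (3 * B + 4) * L = (3 * B + 3) * L + L := by ring
      linarith
    linarith

theorem tendsto_L : Tendsto (fun n : ℕ => Real.sqrt (Real.log n)) atTop atTop :=
  Real.tendsto_sqrt_atTop.comp (Real.tendsto_log_atTop.comp tendsto_natCast_atTop_atTop)

theorem tendsto_quad (c : ℝ) : Tendsto (fun L : ℝ => c * L - L ^ 2 / 2) atTop atBot := by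
  have h : (fun L : ℝ => c * L - L ^ 2 / 2) = fun L => L * (c - L / 2) := by
    funext L; ring
  rw [h]
  apply Tendsto.atTop_mul_atBot₀ tendsto_id
  have h2 : Tendsto (fun L : ℝ => -(L / 2) + c) atTop atBot := by
    apply tendsto_atBot_add_const_right
    exact tendsto_neg_atTop_atBot.comp (tendsto_id.atTop_div_const (by norm_num))
  refine h2.congr ?_
  intro L; ring

theorem tendsto_expquad (c : ℝ) :
    Tendsto (fun n : ℕ => 1735 * Real.exp (c * Real.sqrt (Real.log n) - Real.sqrt (Real.log n) ^ 2 / 2))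
      atTop (nhds 0) := by
  have h := (Real.tendsto_exp_atBot.comp ((tendsto_quad c).comp tendsto_L)).const_mul 1735
  simpa using h

theorem ev_exp (a : ℕ) : ∀ᶠ L : ℝ in atTop, 12 * ((a : ℝ) * L + 3) ≤ Real.exp L := by
  have h1 : ∀ᶠ L : ℝ in atTop, 24 * (a : ℝ) * L + 72 ≤ L ^ 2 := by
    filter_upwards [eventually_ge_atTop (24 * (a : ℝ) + 72), eventually_ge_atTop (1 : ℝ)] with L h h'
    nlinarith [Nat.cast_nonneg (α := ℝ) a]
  filter_upwards [h1, eventually_ge_atTop (0 : ℝ)] with L h h'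
  have := Real.quadratic_le_exp_of_nonneg h'
  linarith

theorem core (B : ℝ) (hB : 0 ≤ B) (a : ℕ) (ha : 6 * B + 9 ≤ (a : ℝ)) :
    ∀ᶠ n : ℕ in atTop, ∀ k : ℝ, Real.sqrt n * Real.exp (-B * Real.sqrt (Real.log n)) ≤ k → k ≤ n →
      0 ≤ kap (vN a n) (NN a n) (k / n) ∧ kap (vN a n) (NN a n) (k / n) ≤
        1735 * Real.exp ((3 * B + 4) * Real.sqrt (Real.log n) -
          3 / 2 * Real.sqrt (Real.log n) ^ 2) := by
  filter_upwards [tendsto_L.eventually (ev_exp a), tendsto_L.eventually_ge_atTop (2 * (B + 3)),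
    eventually_ge_atTop 1] with n h1 h2 hn k hk1 hk2
  have hn0 : (0 : ℝ) < n := by exact_mod_cast hn
  have hn1 : (1 : ℝ) ≤ n := by exact_mod_cast hn
  obtain ⟨L, hL⟩ : ∃ L : ℝ, L = Real.sqrt (Real.log n) := ⟨_, rfl⟩
  rw [← hL] at h1 h2 hk1 ⊢
  have hL6 : 6 ≤ L := by linarith
  have hL2 : L ^ 2 = Real.log n := by
    rw [hL, Real.sq_sqrt (Real.log_nonneg hn1)]
  have hexp : Real.exp (L ^ 2) = n := by rw [hL2, Real.exp_log hn0]
  have hsq : Real.sqrt n = Real.exp (L ^ 2 / 2) := by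
    rw [Real.sqrt_eq_iff_mul_self_eq hn0.le (Real.exp_pos _).le, ← Real.exp_add, ← hexp]
    congr 1; ring
  have hvdef : vN a n = ⌈(a : ℝ) * L⌉₊ + 1 := by unfold vN; rw [hL]
  have haL : 0 ≤ (a : ℝ) * L := by positivity
  have hv1 : (a : ℝ) * L ≤ (vN a n : ℝ) - 1 := by
    rw [hvdef]; push_cast
    have := Nat.le_ceil ((a : ℝ) * L)
    linarith
  have hv3 : (vN a n : ℝ) ≤ (a : ℝ) * L + 2 := by
    rw [hvdef]; push_cast
    have := (Nat.ceil_lt_add_one haL).le
    linarith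
  have hv2 : 12 * ((vN a n : ℝ) + 1) ≤ Real.exp L := by linarith
  have hNdef : NN a n = (n - 1) / (6 * (vN a n + 1)) := rfl
  have hNle : NN a n ≤ n := by
    rw [hNdef]; exact (Nat.div_le_self _ _).trans (Nat.sub_le _ _)
  have hN2 : (NN a n : ℝ) ≤ Real.exp (L ^ 2) := by
    rw [hexp]; exact_mod_cast hNle
  have hbig : 2 * Real.exp L ≤ n := by
    have h7 : 7 ≤ Real.exp L := by
      have := Real.add_one_le_exp L
      linarith
    have h8 : Real.exp L * Real.exp L ≤ Real.exp (L ^ 2) := by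
      rw [← Real.exp_add]
      apply Real.exp_le_exp.mpr
      nlinarith
    rw [hexp] at h8
    nlinarith
  have hN1 : Real.exp (L ^ 2) ≤ 12 * ((vN a n : ℝ) + 1) * (NN a n : ℝ) := by
    rw [hexp]
    have h9 : n - 1 < 6 * (vN a n + 1) * (NN a n + 1) := by
      rw [hNdef]
      exact Nat.lt_mul_div_succ (n - 1) (by positivity)
    have h10 : n ≤ 6 * (vN a n + 1) * (NN a n + 1) := by omega
    have h11 : (n : ℝ) ≤ 6 * ((vN a n : ℝ) + 1) * ((NN a n : ℝ) + 1) := by exact_mod_cast h10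
    have h12 : 12 * ((vN a n : ℝ) + 1) ≤ n := by linarith [Real.exp_pos L]
    nlinarith
  have hkn1 : k / n ≤ 1 := by rw [div_le_one hn0]; exact hk2
  have hkn : Real.exp (-(L ^ 2 / 2) - B * L) ≤ k / n := by
    rw [le_div_iff₀ hn0]
    calc Real.exp (-(L ^ 2 / 2) - B * L) * n = Real.exp (-(L ^ 2 / 2) - B * L) * Real.exp (L ^ 2) := by
          rw [hexp]
      _ = Real.exp (L ^ 2 / 2) * Real.exp (-B * L) := by
          rw [← Real.exp_add, ← Real.exp_add]; congr 1; ring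
      _ ≤ k := by rw [← hsq]; exact hk1
  exact det (vN a n) (NN a n) (k / n) L B a hB ha h2 hv1 hv2 hN1 hN2 hkn hkn1

theorem main : S_ASYM := by
  intro B0
  obtain ⟨B, hBdef⟩ : ∃ B : ℝ, B = |B0| := ⟨_, rfl⟩
  have hB : 0 ≤ B := by rw [hBdef]; exact abs_nonneg _
  obtain ⟨a, ha⟩ := exists_nat_ge (6 * B + 9)
  refine ⟨a, fun k hk0 => ?_⟩
  have hk : ∀ᶠ n : ℕ in atTop, Real.sqrt n * Real.exp (-B * Real.sqrt (Real.log n)) ≤ k n ∧
      k n ≤ n := by
    filter_upwards [hk0] with n h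
    refine ⟨le_trans ?_ h.1, h.2⟩
    apply mul_le_mul_of_nonneg_left _ (Real.sqrt_nonneg _)
    apply Real.exp_le_exp.mpr
    apply mul_le_mul_of_nonneg_right _ (Real.sqrt_nonneg _)
    rw [hBdef]
    exact neg_le_neg (le_abs_self B0)
  have hev : ∀ᶠ n : ℕ in atTop, 1 ≤ n ∧ 0 ≤ kap (vN a n) (NN a n) (k n / n) ∧
      kap (vN a n) (NN a n) (k n / n) ≤ 1735 * Real.exp ((3 * B + 4) * Real.sqrt (Real.log n) -
          3 / 2 * Real.sqrt (Real.log n) ^ 2) ∧
      Real.sqrt n * Real.exp (-B * Real.sqrt (Real.log n)) ≤ k n := by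
    filter_upwards [core B hB a ha, hk, eventually_ge_atTop 1] with n h1 h2 h3
    obtain ⟨h4, h5⟩ := h1 (k n) h2.1 h2.2
    exact ⟨h3, h4, h5, h2.1⟩
  -- facts about `n`
  have hfac : ∀ n : ℕ, 1 ≤ n → (0 : ℝ) < n ∧
      Real.exp (Real.sqrt (Real.log n) ^ 2) = n ∧
      Real.sqrt n = Real.exp (Real.sqrt (Real.log n) ^ 2 / 2) := by
    intro n hn
    have hn0 : (0 : ℝ) < n := by exact_mod_cast hn
    have hn1 : (1 : ℝ) ≤ n := by exact_mod_cast hn
    have e1 : Real.exp (Real.sqrt (Real.log n) ^ 2) = n := by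
      rw [Real.sq_sqrt (Real.log_nonneg hn1), Real.exp_log hn0]
    refine ⟨hn0, e1, ?_⟩
    rw [Real.sqrt_eq_iff_mul_self_eq hn0.le (Real.exp_pos _).le, ← Real.exp_add]
    refine e1.symm.trans ?_
    congr 1; ring
  refine ⟨?_, ?_, ?_⟩
  · refine squeeze_zero' ?_ ?_ (tendsto_expquad (3 * B + 4))
    · filter_upwards [hev] with n h
      exact mul_nonneg (Nat.cast_nonneg n) h.2.1
    · filter_upwards [hev] with n h
      obtain ⟨hn, h0, h1, h2⟩ := h
      obtain ⟨f0, f1, f2⟩ := hfac n hn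
      calc (n : ℝ) * kap (vN a n) (NN a n) (k n / n) ≤ n * (1735 * Real.exp ((3 * B + 4) *
            Real.sqrt (Real.log n) - 3 / 2 * Real.sqrt (Real.log n) ^ 2)) :=
            mul_le_mul_of_nonneg_left h1 f0.le
        _ = Real.exp (Real.sqrt (Real.log n) ^ 2) * (1735 * Real.exp ((3 * B + 4) *
            Real.sqrt (Real.log n) - 3 / 2 * Real.sqrt (Real.log n) ^ 2)) := by rw [f1]
        _ = 1735 * (Real.exp (Real.sqrt (Real.log n) ^ 2) * Real.exp ((3 * B + 4) *
            Real.sqrt (Real.log n) - 3 / 2 * Real.sqrt (Real.log n) ^ 2)) := by ring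
        _ = 1735 * Real.exp ((3 * B + 4) * Real.sqrt (Real.log n) -
            Real.sqrt (Real.log n) ^ 2 / 2) := by
            rw [← Real.exp_add]; congr 2; ring
  · refine squeeze_zero' ?_ ?_ (tendsto_expquad (5 * B + 4))
    · filter_upwards [hev] with n h
      exact mul_nonneg (sq_nonneg _) h.2.1
    · filter_upwards [hev] with n h
      obtain ⟨hn, h0, h1, h2⟩ := h
      obtain ⟨f0, f1, f2⟩ := hfac n hn
      have hkpos : 0 < k n := lt_of_lt_of_le (by rw [f2]; positivity) h2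
      have h3 : (n : ℝ) / k n ≤ Real.exp (Real.sqrt (Real.log n) ^ 2 / 2 +
          B * Real.sqrt (Real.log n)) := by
        rw [div_le_iff₀ hkpos]
        calc (n : ℝ) = Real.exp (Real.sqrt (Real.log n) ^ 2) := f1.symm
          _ = Real.exp (Real.sqrt (Real.log n) ^ 2 / 2 + B * Real.sqrt (Real.log n)) *
              (Real.exp (Real.sqrt (Real.log n) ^ 2 / 2) *
                Real.exp (-B * Real.sqrt (Real.log n))) := by
              rw [← Real.exp_add, ← Real.exp_add]; congr 1; ring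
          _ ≤ Real.exp (Real.sqrt (Real.log n) ^ 2 / 2 + B * Real.sqrt (Real.log n)) * k n := by
              apply mul_le_mul_of_nonneg_left _ (Real.exp_pos _).le
              rw [← f2]; exact h2
      have h4 : ((n : ℝ) / k n) ^ 2 ≤ (Real.exp (Real.sqrt (Real.log n) ^ 2 / 2 +
          B * Real.sqrt (Real.log n))) ^ 2 := pow_le_pow_left₀ (by positivity) h3 2
      calc ((n : ℝ) / k n) ^ 2 * kap (vN a n) (NN a n) (k n / n) ≤
            (Real.exp (Real.sqrt (Real.log n) ^ 2 / 2 + B * Real.sqrt (Real.log n))) ^ 2 *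
            (1735 * Real.exp ((3 * B + 4) *
            Real.sqrt (Real.log n) - 3 / 2 * Real.sqrt (Real.log n) ^ 2)) :=
            mul_le_mul h4 h1 h0 (by positivity)
        _ = 1735 * ((Real.exp (Real.sqrt (Real.log n) ^ 2 / 2 +
            B * Real.sqrt (Real.log n))) ^ 2 * Real.exp ((3 * B + 4) *
            Real.sqrt (Real.log n) - 3 / 2 * Real.sqrt (Real.log n) ^ 2)) := by ring
        _ = 1735 * Real.exp ((5 * B + 4) * Real.sqrt (Real.log n) -
            Real.sqrt (Real.log n) ^ 2 / 2) := by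
            rw [← Real.exp_nat_mul, ← Real.exp_add]; congr 2; push_cast; ring
  · have h5 : Tendsto (fun n : ℕ => Real.exp (-(B * Real.sqrt (Real.log n) -
        Real.sqrt (Real.log n) ^ 2 / 2))) atTop atTop :=
      Real.tendsto_exp_atTop.comp (tendsto_neg_atBot_atTop.comp ((tendsto_quad B).comp tendsto_L))
    refine tendsto_atTop_mono' atTop ?_ h5
    filter_upwards [hev] with n h
    obtain ⟨hn, h0, h1, h2⟩ := h
    obtain ⟨f0, f1, f2⟩ := hfac n hn
    refine le_trans (le_of_eq ?_) h2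
    rw [f2, ← Real.exp_add]; congr 1; ring

end Pool.Agent.W2helper43.LD
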